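import Pool.Agent.H517R2.EO.Final

/-!
# Homogeneous systems: lower bound of the dimension
-/

set_option autoImplicit false

namespace Pool.Agent.Y293.EO

open H517.EO

theorem claim_nonflat : M_claim ∧ N_nonflat := by
  have hLm : L_mono := t_L_mono
  have hLl : L_leak := t_L_leak (t_L_prod t_L_single) hLm
  have hDd : D_drop := t_D_drop t_D_pair t_E_bin t_E_grid
  have hDl : D_lam := t_D_lam hDd hLl hLm t_E_grid
  have hF1 : F_one := t_F_one t_F_conv
  have hFh : F_h := t_F_h hF1 t_E_submod t_E_mono t_E_bound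
  have hF2 : F_two := t_F_two (t_F_ent t_E_submod) t_E_submod hFh
  have hFt : F_thm := t_F_thm hF1 hF2 hFh t_F_act t_E_mono
  have hFl : F_low := t_F_low hFt t_E_submod t_E_mono
  have hN : N_nonflat := t_N_nonflat t_N_fejer hLl hLm t_E_grid t_E_card
  have hPg : P_grid := t_P_grid t_P_step t_P_multi
  have hAc : A_compact := t_A_compact t_A_ker (t_A_caseA t_E_mono t_E_card t_E_submod) t_A_anal
    t_A_root t_A_rel t_A_lim t_A_span t_A_det t_A_bds
  have hWw : W_win := t_W_win t_W_lemma (t_W_minor t_W_liou) t_W_taylor t_A_rel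
  have hWk : W_kappa := t_W_kappa hPg hWw (t_W_drop t_E_inactive t_E_mono) t_E_grid
  have hM : M_claim := t_M_claim hDl hFl t_P_near t_A_chain hAc hWk t_W_sep
  exact ⟨hM, hN⟩

theorem homog : G_homog :=
  t_G_homog (t_M_cells claim_nonflat.1 claim_nonflat.2 t_E_bound t_E_card) t_G_holder

end Pool.Agent.Y293.EO
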