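import Pool.Agent.Y293.EO.Defs

/-!
# Words of similarities of the line
-/

set_option autoImplicit false

namespace Pool.Agent.Y293.EO

@[simp] lemma comp_nil (x : ℝ) : comp [] x = x := rfl

lemma comp_cons (φ : ℝ × ℝ) (u : List (ℝ × ℝ)) (x : ℝ) :
    comp (φ :: u) x = φ.1 * comp u x + φ.2 := rfl

lemma comp_append (u v : List (ℝ × ℝ)) (x : ℝ) : comp (u ++ v) x = comp u (comp v x) := by
  unfold comp
  rw [List.foldr_append]

lemma comp_affine (u : List (ℝ × ℝ)) (x : ℝ) :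
    comp u x = (u.map Prod.fst).prod * x + comp u 0 := by
  induction u with
  | nil => simp
  | cons φ u ih =>
    rw [comp_cons, comp_cons, ih, List.map_cons, List.prod_cons]
    ring

lemma prod_ne {u : List (ℝ × ℝ)} (h : ∀ φ ∈ u, φ.1 ≠ 0) : (u.map Prod.fst).prod ≠ 0 := by
  induction u with
  | nil => simp
  | cons φ u ih =>
    rw [List.map_cons, List.prod_cons]
    exact mul_ne_zero (h φ List.mem_cons_self) (ih fun ψ hψ => h ψ (List.mem_cons_of_mem _ hψ))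

lemma prod_le {u : List (ℝ × ℝ)} (h : ∀ φ ∈ u, |φ.1| < 1) : |(u.map Prod.fst).prod| ≤ 1 := by
  induction u with
  | nil => simp
  | cons φ u ih =>
    rw [List.map_cons, List.prod_cons, abs_mul]
    exact mul_le_one₀ (h φ List.mem_cons_self).le (abs_nonneg _)
      (ih fun ψ hψ => h ψ (List.mem_cons_of_mem _ hψ))

lemma prod_lt {u : List (ℝ × ℝ)} (h : ∀ φ ∈ u, |φ.1| < 1) (hu : u ≠ []) :
    |(u.map Prod.fst).prod| < 1 := by
  cases u with
  | nil => exact absurd rfl hu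
  | cons φ u =>
    rw [List.map_cons, List.prod_cons, abs_mul]
    have h1 := prod_le fun ψ hψ => h ψ (List.mem_cons_of_mem φ hψ)
    calc |φ.1| * |(u.map Prod.fst).prod| ≤ |φ.1| * 1 :=
          mul_le_mul_of_nonneg_left h1 (abs_nonneg _)
      _ < 1 := by rw [mul_one]; exact h φ List.mem_cons_self

lemma comp_mem {Φ : Set (ℝ × ℝ)} {X : Set ℝ} (hX : ∀ φ ∈ Φ, ∀ x ∈ X, φ.1 * x + φ.2 ∈ X)
    {u : List (ℝ × ℝ)} (hu : ∀ φ ∈ u, φ ∈ Φ) : ∀ x ∈ X, comp u x ∈ X := by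
  induction u with
  | nil => intro x hx; exact hx
  | cons φ u ih =>
    intro x hx
    rw [comp_cons]
    exact hX φ (hu φ List.mem_cons_self) _ (ih (fun ψ hψ => hu ψ (List.mem_cons_of_mem _ hψ)) x hx)

/-- a nonempty word of contractions is not the identity -/
lemma comp_ne_id {u : List (ℝ × ℝ)} (h : ∀ φ ∈ u, |φ.1| < 1) (hu : u ≠ []) :
    comp u ≠ comp [] := by
  intro he
  have h1 := congrFun he 1
  have h2 := congrFun he 0
  rw [comp_affine, comp_nil] at h1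
  rw [comp_nil] at h2
  rw [h2, mul_one, add_zero] at h1
  have h3 := prod_lt h hu
  rw [h1, abs_one] at h3
  exact lt_irrefl _ h3

lemma eq_of_comp {φ : ℝ × ℝ} {u : List (ℝ × ℝ)} (h : comp u = fun x => φ.1 * x + φ.2) :
    (u.map Prod.fst).prod = φ.1 ∧ comp u 0 = φ.2 := by
  have h0 := congrFun h 0
  have h1 := congrFun h 1
  simp only [mul_zero, zero_add] at h0
  rw [comp_affine, h0] at h1
  constructor
  · linarith
  · exact h0

/-- elements of the semigroup are contracting similarities -/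
lemma gen_contr {Φ : Set (ℝ × ℝ)} (hΦ : ∀ φ ∈ Φ, φ.1 ≠ 0 ∧ |φ.1| < 1) {ψ : ℝ × ℝ}
    (h : ψ ∈ gen Φ) : ψ.1 ≠ 0 ∧ |ψ.1| < 1 := by
  obtain ⟨u, hu, hl, hc⟩ := h
  rw [← (eq_of_comp hc).1]
  exact ⟨prod_ne fun φ hφ => (hΦ φ (hl φ hφ)).1, prod_lt (fun φ hφ => (hΦ φ (hl φ hφ)).2) hu⟩

lemma gen_mem {Φ : Set (ℝ × ℝ)} {X : Set ℝ} (hX : ∀ φ ∈ Φ, ∀ x ∈ X, φ.1 * x + φ.2 ∈ X)
    {ψ : ℝ × ℝ} (h : ψ ∈ gen Φ) : ∀ x ∈ X, ψ.1 * x + ψ.2 ∈ X := by
  obtain ⟨u, -, hl, hc⟩ := h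
  intro x hx
  have h1 := comp_mem hX hl x hx
  rw [hc] at h1
  exact h1

/-- stopping words -/
lemma exists_stop {Φ : Set (ℝ × ℝ)} {X : Set ℝ} {c C : ℝ} (hc : 0 < c) (hC : C < 1)
    (hΦ : ∀ φ ∈ Φ, c ≤ |φ.1| ∧ |φ.1| ≤ C)
    (hX : ∀ x ∈ X, ∃ φ ∈ Φ, ∃ y ∈ X, φ.1 * y + φ.2 = x) :
    ∀ k : ℕ, ∀ ρ : ℝ, 0 < ρ → ρ ≤ 1 → C ^ k ≤ ρ → ∀ x ∈ X, ∃ u : List (ℝ × ℝ), ∃ y ∈ X,
      (∀ φ ∈ u, φ ∈ Φ) ∧ comp u y = x ∧ c * ρ ≤ |(u.map Prod.fst).prod| ∧
        |(u.map Prod.fst).prod| ≤ ρ := by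
  intro k
  induction k with
  | zero =>
    intro ρ _ h1 h2 x hx
    rw [pow_zero] at h2
    have h3 : ρ = 1 := le_antisymm h1 h2
    obtain ⟨φ, hφ, -⟩ := hX x hx
    have h4 := hΦ φ hφ
    refine ⟨[], x, hx, by simp, rfl, ?_, ?_⟩
    · simp only [List.map_nil, List.prod_nil, abs_one]
      rw [h3]; linarith
    · simp [h3]
  | succ k ih =>
    intro ρ h0 h1 h2 x hx
    obtain ⟨φ, hφ, y, hy, hyx⟩ := hX x hx
    obtain ⟨h4, h5⟩ := hΦ φ hφ
    have ha : 0 < |φ.1| := hc.trans_le h4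
    by_cases h6 : |φ.1| ≤ ρ
    · refine ⟨[φ], y, hy, by simpa using hφ, by simpa [comp_cons] using hyx, ?_, ?_⟩
      · simp only [List.map_cons, List.map_nil, List.prod_cons, List.prod_nil, mul_one]
        nlinarith
      · simpa using h6
    · push Not at h6
      obtain ⟨u, z, hz, hu, huz, h7, h8⟩ := ih (ρ / |φ.1|) (by positivity)
        (by rw [div_le_one ha]; exact h6.le) (by
          rw [le_div_iff₀ ha]
          have hC0 : 0 ≤ C := ha.le.trans h5
          calc C ^ k * |φ.1| ≤ C ^ k * C := mul_le_mul_of_nonneg_left h5 (pow_nonneg hC0 _)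
            _ = C ^ (k + 1) := (pow_succ _ _).symm
            _ ≤ ρ := h2) y hy
      refine ⟨φ :: u, z, hz, ?_, ?_, ?_, ?_⟩
      · intro ψ hψ
        rcases List.mem_cons.1 hψ with h | h
        · rw [h]; exact hφ
        · exact hu ψ h
      · rw [comp_cons, huz, hyx]
      · rw [List.map_cons, List.prod_cons, abs_mul]
        calc c * ρ = |φ.1| * (c * (ρ / |φ.1|)) := by field_simp
          _ ≤ _ := mul_le_mul_of_nonneg_left h7 ha.le
      · rw [List.map_cons, List.prod_cons, abs_mul]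
        calc |φ.1| * |(u.map Prod.fst).prod| ≤ |φ.1| * (ρ / |φ.1|) :=
              mul_le_mul_of_nonneg_left h8 ha.le
          _ = ρ := by field_simp

/-- an affine map as a map of intervals -/
lemma aff_mem {m M x : ℝ} (φ : ℝ × ℝ) (h1 : m ≤ x) (h2 : x ≤ M) :
    φ.1 * x + φ.2 ∈ Set.uIcc (φ.1 * m + φ.2) (φ.1 * M + φ.2) := by
  rw [Set.mem_uIcc]
  rcases le_total 0 φ.1 with h | h
  · left
    constructor <;> nlinarith
  · right
    constructor <;> nlinarith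

/-- a separated family: the images of the interval `[m, M]` are disjoint -/
def Sep (m M : ℝ) (F : Finset (ℝ × ℝ)) : Prop :=
  ∀ g ∈ F, ∀ h ∈ F, g ≠ h → Disjoint (Set.uIcc (g.1 * m + g.2) (g.1 * M + g.2))
    (Set.uIcc (h.1 * m + h.2) (h.1 * M + h.2))

/-- separated families are free -/
lemma Sep.free {m M : ℝ} (hmM : m ≤ M) {F : Finset (ℝ × ℝ)} (hF : Sep m M F)
    (hF1 : ∀ g ∈ F, g.1 ≠ 0 ∧ |g.1| < 1)
    (hF2 : ∀ g ∈ F, ∀ x, m ≤ x → x ≤ M → m ≤ g.1 * x + g.2 ∧ g.1 * x + g.2 ≤ M) :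
    IsFree (F : Set (ℝ × ℝ)) := by
  have hI : ∀ u : List (ℝ × ℝ), (∀ φ ∈ u, φ ∈ F) → m ≤ comp u m ∧ comp u m ≤ M := by
    intro u
    induction u with
    | nil => intro _; exact ⟨le_rfl, hmM⟩
    | cons φ u ih =>
      intro hu
      obtain ⟨h1, h2⟩ := ih fun ψ hψ => hu ψ (List.mem_cons_of_mem _ hψ)
      rw [comp_cons]
      exact hF2 φ (hu φ List.mem_cons_self) _ h1 h2
  have key : ∀ u v : List (ℝ × ℝ), (∀ φ ∈ u, φ ∈ F) → (∀ φ ∈ v, φ ∈ F) →
      comp u = comp v → u = v := by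
    intro u
    induction u with
    | nil =>
      intro v _ hv he
      by_contra hne
      exact comp_ne_id (fun φ hφ => (hF1 φ (hv φ hφ)).2) (Ne.symm hne) he.symm
    | cons φ u ih =>
      intro v hu hv he
      cases v with
      | nil =>
        exact absurd he (comp_ne_id (fun ψ hψ => (hF1 ψ (hu ψ hψ)).2) (by simp))
      | cons χ v =>
        have hφ := hu φ List.mem_cons_self
        have hχ := hv χ List.mem_cons_self
        have hu' : ∀ ψ ∈ u, ψ ∈ F := fun ψ hψ => hu ψ (List.mem_cons_of_mem _ hψ)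
        have hv' : ∀ ψ ∈ v, ψ ∈ F := fun ψ hψ => hv ψ (List.mem_cons_of_mem _ hψ)
        have h1 : φ = χ := by
          by_contra hne
          have h2 := Set.disjoint_left.1 (hF φ hφ χ hχ hne)
            (aff_mem φ (hI u hu').1 (hI u hu').2)
          apply h2
          have h3 := congrFun he m
          rw [comp_cons, comp_cons] at h3
          rw [h3]
          exact aff_mem χ (hI v hv').1 (hI v hv').2
        subst h1
        have h4 : comp u = comp v := by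
          funext x
          have h3 := congrFun he x
          rw [comp_cons, comp_cons] at h3
          have h5 : φ.1 * (comp u x - comp v x) = 0 := by linarith
          have h6 := (mul_eq_zero.1 h5).resolve_left (hF1 φ hφ).1
          linarith
        rw [ih v hu' hv' h4]
  intro u v _ _ hu hv he
  exact key u v (fun φ hφ => Finset.mem_coe.1 (hu φ hφ)) (fun φ hφ => Finset.mem_coe.1 (hv φ hφ)) he

end Pool.Agent.Y293.EO
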