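import Mathlib

/-!
# Words of similarities of the line
-/

set_option autoImplicit false

namespace Pool.Agent.Y293.EO

/-- The composition `φ₁ ∘ ... ∘ φₙ` of a word of similarities `x ↦ a x + t` of the line, each
given by its pair `(a, t)`. -/
def comp (u : List (ℝ × ℝ)) : ℝ → ℝ := fun x => u.foldr (fun φ y => φ.1 * y + φ.2) x

/-- The semigroup generated by `Φ`: all `ψ` which are compositions of nonempty words over `Φ`. -/
def gen (Φ : Set (ℝ × ℝ)) : Set (ℝ × ℝ) :=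
  {ψ | ∃ u : List (ℝ × ℝ), u ≠ [] ∧ (∀ φ ∈ u, φ ∈ Φ) ∧ comp u = fun x => ψ.1 * x + ψ.2}

/-- `Ψ` is free: distinct nonempty words over `Ψ` have distinct compositions. -/
def IsFree (Ψ : Set (ℝ × ℝ)) : Prop :=
  ∀ u v : List (ℝ × ℝ), u ≠ [] → v ≠ [] → (∀ ψ ∈ u, ψ ∈ Ψ) → (∀ ψ ∈ v, ψ ∈ Ψ) →
    comp u = comp v → u = v

end Pool.Agent.Y293.EO
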