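import Pool.Agent.Y293.EO.Comp

/-!
# Separated subsystems of large similarity dimension
-/

set_option autoImplicit false

open Set MeasureTheory Filter Topology

namespace Pool.Agent.Y293.EO

/-- a separated family of maps with ratio at least `δ` is small -/
lemma Sep.card_le {m M δ : ℝ} (hmM : m < M) (hδ : 0 < δ) {F : Finset (ℝ × ℝ)}
    (hF : Sep m M F) (hF1 : ∀ g ∈ F, δ ≤ |g.1|)
    (hF2 : ∀ g ∈ F, ∀ x, m ≤ x → x ≤ M → m ≤ g.1 * x + g.2 ∧ g.1 * x + g.2 ≤ M) :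
    (F.card : ℝ) ≤ 1 / δ := by
  have hD : 0 < M - m := by linarith
  have h1 : volume (⋃ g ∈ F, uIcc (g.1 * m + g.2) (g.1 * M + g.2)) ≤ volume (Icc m M) := by
    refine measure_mono (iUnion₂_subset fun g hg => ?_)
    have h2 := hF2 g hg m le_rfl hmM.le
    have h3 := hF2 g hg M hmM.le le_rfl
    exact uIcc_subset_Icc ⟨h2.1, h2.2⟩ ⟨h3.1, h3.2⟩
  rw [measure_biUnion_finset (fun g hg h hh hne => hF g hg h hh hne)
    (fun g _ => measurableSet_uIcc), Real.volume_Icc] at h1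
  have h2 : ∀ g ∈ F, ENNReal.ofReal (δ * (M - m)) ≤
      volume (uIcc (g.1 * m + g.2) (g.1 * M + g.2)) := by
    intro g hg
    rw [uIcc, Real.volume_Icc]
    refine ENNReal.ofReal_le_ofReal ?_
    rw [max_sub_min_eq_abs']
    have h3 : g.1 * m + g.2 - (g.1 * M + g.2) = -(g.1 * (M - m)) := by ring
    rw [h3, abs_neg, abs_mul, abs_of_pos hD]
    exact mul_le_mul_of_nonneg_right (hF1 g hg) hD.le
  have h3 := (Finset.sum_le_sum h2).trans h1
  rw [Finset.sum_const, nsmul_eq_mul, ← ENNReal.ofReal_natCast, ← ENNReal.ofReal_mul (by positivity),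
    ENNReal.ofReal_le_ofReal_iff hD.le] at h3
  rw [le_div_iff₀ hδ]
  have h4 : (F.card : ℝ) * δ * (M - m) ≤ 1 * (M - m) := by linarith
  exact le_of_mul_le_mul_right h4 hD

/-- there is a solution of the dimension equation beyond `t` -/
lemma exists_dim {F : Finset (ℝ × ℝ)} (hF1 : ∀ g ∈ F, 0 < |g.1| ∧ |g.1| < 1) {t : ℝ}
    (ht : 1 ≤ ∑ g ∈ F, |g.1| ^ t) : ∃ s : ℝ, t ≤ s ∧ ∑ g ∈ F, |g.1| ^ s = 1 := by
  have hc : Continuous (fun s : ℝ => ∑ g ∈ F, |g.1| ^ s) :=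
    continuous_finsetSum _ fun g hg =>
      Real.continuous_const_rpow (hF1 g hg).1.ne'
  have hlim : Tendsto (fun s : ℝ => ∑ g ∈ F, |g.1| ^ s) atTop (𝓝 (∑ g ∈ F, (0:ℝ))) := by
    refine tendsto_finsetSum _ fun g hg => ?_
    exact tendsto_rpow_atTop_of_base_lt_one _ (by linarith [(hF1 g hg).1]) (hF1 g hg).2
  rw [Finset.sum_const_zero] at hlim
  obtain ⟨S, hS⟩ := ((hlim.eventually (gt_mem_nhds one_pos)).and (eventually_ge_atTop t)).exists
  have h1 := intermediate_value_Icc' hS.2 hc.continuousOn ⟨hS.1.le, ht⟩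
  obtain ⟨s, hs, hs2⟩ := h1
  exact ⟨s, hs.1, hs2⟩

/-- Below the Hausdorff dimension there are separated subsystems of similarity dimension `≥ t`. -/
theorem exists_sep {Φ : Set (ℝ × ℝ)} {X : Set ℝ} {c C : ℝ} (hc : 0 < c) (hC : C < 1)
    (hΦ : ∀ φ ∈ Φ, c ≤ |φ.1| ∧ |φ.1| ≤ C) (hXc : IsCompact X) (hXn : X.Nonempty)
    (hX1 : ∀ φ ∈ Φ, ∀ x ∈ X, φ.1 * x + φ.2 ∈ X)
    (hX2 : ∀ x ∈ X, ∃ φ ∈ Φ, ∃ y ∈ X, φ.1 * y + φ.2 = x)
    {t : NNReal} (ht : (t : ENNReal) < dimH X) :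
    ∃ (F : Finset (ℝ × ℝ)) (s : NNReal), (F : Set (ℝ × ℝ)) ⊆ gen Φ ∧ IsFree (F : Set (ℝ × ℝ)) ∧
      ∑ g ∈ F, |g.1| ^ (s : ℝ) = 1 ∧ t ≤ s := by
  classical
  -- the convex hull
  obtain ⟨m, hmX, hm⟩ := hXc.exists_isLeast hXn
  obtain ⟨M, hMX, hM⟩ := hXc.exists_isGreatest hXn
  have hmM' : m ≤ M := hm hMX
  have hmM : m < M := by
    rcases hmM'.lt_or_eq with h | h
    · exact h
    · exfalso
      have h1 : X ⊆ {m} := fun x hx => le_antisymm (by rw [h]; exact hM hx) (hm hx)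
      have h2 : dimH X ≤ dimH ({m} : Set ℝ) := dimH_mono h1
      rw [dimH_singleton] at h2
      exact absurd ht (not_lt.2 (h2.trans bot_le))
  set D : ℝ := M - m with hD
  have hDpos : 0 < D := by linarith
  have hΦ' : ∀ φ ∈ Φ, φ.1 ≠ 0 ∧ |φ.1| < 1 := fun φ hφ =>
    ⟨abs_pos.1 (hc.trans_le (hΦ φ hφ).1), (hΦ φ hφ).2.trans_lt hC⟩
  have hgI : ∀ g ∈ gen Φ, ∀ x, m ≤ x → x ≤ M → m ≤ g.1 * x + g.2 ∧ g.1 * x + g.2 ≤ M := by
    intro g hg x h1 h2
    have h3 := gen_mem hX1 hg m hmX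
    have h4 := gen_mem hX1 hg M hMX
    have h5 := uIcc_subset_Icc ⟨hm h3, hM h3⟩ ⟨hm h4, hM h4⟩ (aff_mem g h1 h2)
    exact ⟨h5.1, h5.2⟩
  have hC0 : 0 ≤ C := by
    obtain ⟨φ, hφ, -⟩ := hX2 m hmX
    exact (abs_nonneg _).trans (hΦ φ hφ).2
  -- scales
  set ρ : ℕ → ℝ := fun n => (1 / 2) ^ (n + 1) with hρ
  have hρ0 : ∀ n, 0 < ρ n := fun n => by positivity
  have hρ1 : ∀ n, ρ n < 1 := fun n => pow_lt_one₀ (by norm_num) (by norm_num) (by omega)
  let P : ℕ → ℕ → Prop := fun n k => ∃ F : Finset (ℝ × ℝ), (∀ g ∈ F, g ∈ gen Φ) ∧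
    (∀ g ∈ F, c * ρ n ≤ |g.1| ∧ |g.1| ≤ ρ n) ∧ Sep m M F ∧ F.card = k
  have hPb : ∀ n k, P n k → k ≤ ⌊1 / (c * ρ n)⌋₊ := by
    rintro n k ⟨F, h1, h2, h3, rfl⟩
    refine Nat.le_floor ?_
    exact h3.card_le hmM (mul_pos hc (hρ0 n)) (fun g hg => (h2 g hg).1)
      (fun g hg => hgI g (h1 g hg))
  have hP0 : ∀ n, P n 0 := fun n => ⟨∅, by simp, by simp, by simp [Sep], rfl⟩
  have hmax : ∀ n, ∃ F : Finset (ℝ × ℝ), (∀ g ∈ F, g ∈ gen Φ) ∧
      (∀ g ∈ F, c * ρ n ≤ |g.1| ∧ |g.1| ≤ ρ n) ∧ Sep m M F ∧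
      ∀ k, P n k → k ≤ F.card := by
    intro n
    have h1 := Nat.findGreatest_spec (P := P n) (hPb n 0 (hP0 n)) (hP0 n)
    obtain ⟨F, h2, h3, h4, h5⟩ := h1
    refine ⟨F, h2, h3, h4, fun k hk => ?_⟩
    rw [h5]
    exact Nat.le_findGreatest (hPb n k hk) hk
  choose F hF1 hF2 hF3 hF4 using hmax
  -- the maximal families give coverings
  have hcover : ∀ n, X ⊆ ⋃ g : {g // g ∈ F n}, Metric.closedBall (g.1.1 * m + g.1.2) (2 * ρ n * D) := by
    intro n x hx
    obtain ⟨k, hk⟩ := exists_pow_lt_of_lt_one (hρ0 n) hC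
    obtain ⟨u, y, hy, hu, hux, h1, h2⟩ := exists_stop hc hC hΦ hX2 k (ρ n) (hρ0 n) (hρ1 n).le
      hk.le x hx
    set h : ℝ × ℝ := ((u.map Prod.fst).prod, comp u 0) with hh
    have hune : u ≠ [] := by
      rintro rfl
      simp only [List.map_nil, List.prod_nil, abs_one] at h2
      linarith [hρ1 n]
    have hgen : h ∈ gen Φ := ⟨u, hune, hu, by funext z; exact comp_affine u z⟩
    have hhx : h.1 * y + h.2 = x := by
      rw [← hux]; exact (comp_affine u y).symm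
    have hlen : ∀ g : ℝ × ℝ, |g.1| ≤ ρ n →
        |g.1 * M + g.2 - (g.1 * m + g.2)| ≤ ρ n * D := by
      intro g hg
      have h3 : g.1 * M + g.2 - (g.1 * m + g.2) = g.1 * D := by rw [hD]; ring
      rw [h3, abs_mul, abs_of_pos hDpos]
      exact mul_le_mul_of_nonneg_right hg hDpos.le
    have hdist : ∀ g : ℝ × ℝ, |g.1| ≤ ρ n →
        ∀ z ∈ uIcc (g.1 * m + g.2) (g.1 * M + g.2), |z - (g.1 * m + g.2)| ≤ ρ n * D := by
      intro g hg z hz
      exact (abs_sub_left_of_mem_uIcc hz).trans (hlen g hg)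
    have hdist2 : ∀ g : ℝ × ℝ, |g.1| ≤ ρ n →
        ∀ z ∈ uIcc (g.1 * m + g.2) (g.1 * M + g.2),
        ∀ w ∈ uIcc (g.1 * m + g.2) (g.1 * M + g.2), |z - w| ≤ ρ n * D := by
      intro g hg z hz w hw
      refine le_trans ?_ (hlen g hg)
      exact abs_sub_le_of_uIcc_subset_uIcc (uIcc_subset_uIcc hw hz)
    -- an element of the family meeting the image
    obtain ⟨g, hg, hgh⟩ : ∃ g ∈ F n, ¬ Disjoint (uIcc (g.1 * m + g.2) (g.1 * M + g.2))
        (uIcc (h.1 * m + h.2) (h.1 * M + h.2)) := by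
      by_contra hcon
      push Not at hcon
      have hnot : h ∉ F n := by
        intro hin
        have h3 := hcon h hin
        exact Set.disjoint_left.1 h3 left_mem_uIcc left_mem_uIcc
      have h4 := hF4 n ((insert h (F n)).card) ⟨insert h (F n), ?_, ?_, ?_, rfl⟩
      · rw [Finset.card_insert_of_notMem hnot] at h4
        omega
      · intro g hg
        rcases Finset.mem_insert.1 hg with h5 | h5
        · rw [h5]; exact hgen
        · exact hF1 n g h5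
      · intro g hg
        rcases Finset.mem_insert.1 hg with h5 | h5
        · rw [h5]; exact ⟨h1, h2⟩
        · exact hF2 n g h5
      · intro g hg g' hg' hne
        rcases Finset.mem_insert.1 hg with h5 | h5 <;> rcases Finset.mem_insert.1 hg' with h6 | h6
        · exact absurd (h5.trans h6.symm) hne
        · rw [h5]; exact (hcon g' h6).symm
        · rw [h6]; exact hcon g h5
        · exact hF3 n g h5 g' h6 hne
    obtain ⟨z, hz1, hz2⟩ := Set.not_disjoint_iff.1 hgh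
    refine mem_iUnion.2 ⟨⟨g, hg⟩, ?_⟩
    rw [Metric.mem_closedBall, Real.dist_eq]
    have h5 : x ∈ uIcc (h.1 * m + h.2) (h.1 * M + h.2) := by
      rw [← hhx]; exact aff_mem h (hm hy) (hM hy)
    have h6 := hdist2 h h2 x h5 z hz2
    have h7 := hdist g (hF2 n g hg).2 z hz1
    calc |x - (g.1 * m + g.2)| ≤ |x - z| + |z - (g.1 * m + g.2)| := abs_sub_le _ _ _
      _ ≤ 2 * ρ n * D := by linarith
  -- some family is large
  have hbig : ∃ n, ((c * ρ n) ^ (t : ℝ))⁻¹ < (F n).card := by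
    by_contra hcon
    push Not at hcon
    have hmeas : Measure.hausdorffMeasure (t : ℝ) X ≠ ⊤ := by
      have hρt : Tendsto (fun n => ENNReal.ofReal (4 * ρ n * D)) atTop (𝓝 0) := by
        have h0 : Tendsto (fun n : ℕ => 4 * ρ n * D) atTop (𝓝 (4 * 0 * D)) := by
          refine Tendsto.mul_const _ (Tendsto.const_mul _ ?_)
          exact (tendsto_add_atTop_iff_nat 1).2
            (tendsto_pow_atTop_nhds_zero_of_lt_one (r := (1/2 : ℝ)) (by norm_num) (by norm_num))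
        have h1 := (ENNReal.continuous_ofReal.tendsto _).comp h0
        simpa [Function.comp_def] using h1
      have key := Measure.hausdorffMeasure_le_liminf_sum (X := ℝ) (β := ℕ)
        (ι := fun n => {g // g ∈ F n}) (t : ℝ) X (l := atTop)
        (fun n => ENNReal.ofReal (4 * ρ n * D)) hρt
        (fun n g => Metric.closedBall (g.1.1 * m + g.1.2) (2 * ρ n * D))
        (Eventually.of_forall fun n g => by
          rw [Real.closedBall_eq_Icc, Real.ediam_Icc]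
          exact ENNReal.ofReal_le_ofReal (by linarith))
        (Eventually.of_forall hcover)
      have hbound : ∀ n, ∑ g : {g // g ∈ F n},
          Metric.ediam (Metric.closedBall (g.1.1 * m + g.1.2) (2 * ρ n * D)) ^ (t : ℝ) ≤
          ENNReal.ofReal ((4 * D / c) ^ (t : ℝ)) := by
        intro n
        have h1 : ∀ g : {g // g ∈ F n},
            Metric.ediam (Metric.closedBall (g.1.1 * m + g.1.2) (2 * ρ n * D)) ^ (t : ℝ) =
            ENNReal.ofReal ((4 * ρ n * D) ^ (t : ℝ)) := by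
          intro g
          have h0 := hρ0 n
          have h2 : g.1.1 * m + g.1.2 + 2 * ρ n * D - (g.1.1 * m + g.1.2 - 2 * ρ n * D) =
              4 * ρ n * D := by ring
          rw [Real.closedBall_eq_Icc, Real.ediam_Icc, h2,
            ENNReal.ofReal_rpow_of_nonneg (by positivity) (NNReal.coe_nonneg t)]
        rw [Finset.sum_congr rfl fun g _ => h1 g, Finset.sum_const, Finset.card_univ,
          Fintype.card_coe, nsmul_eq_mul, ← ENNReal.ofReal_natCast,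
          ← ENNReal.ofReal_mul (by positivity)]
        refine ENNReal.ofReal_le_ofReal ?_
        have hρn := hρ0 n
        calc ((F n).card : ℝ) * (4 * ρ n * D) ^ (t : ℝ)
            ≤ ((c * ρ n) ^ (t : ℝ))⁻¹ * (4 * ρ n * D) ^ (t : ℝ) :=
              mul_le_mul_of_nonneg_right (hcon n) (by positivity)
          _ = (4 * D / c) ^ (t : ℝ) := by
              rw [← Real.inv_rpow (by positivity), ← Real.mul_rpow (by positivity) (by positivity)]
              congr 1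
              field_simp
      refine ne_top_of_le_ne_top (b := ENNReal.ofReal ((4 * D / c) ^ (t : ℝ)))
        ENNReal.ofReal_ne_top (key.trans ?_)
      calc liminf (fun n => ∑ g : {g // g ∈ F n},
            Metric.ediam (Metric.closedBall (g.1.1 * m + g.1.2) (2 * ρ n * D)) ^ (t : ℝ)) atTop
          ≤ liminf (fun _ : ℕ => ENNReal.ofReal ((4 * D / c) ^ (t : ℝ))) atTop :=
            liminf_le_liminf (Eventually.of_forall hbound)
        _ = _ := by simp
    exact absurd (dimH_le_of_hausdorffMeasure_ne_top hmeas) (not_le.2 ht)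
  obtain ⟨n, hn⟩ := hbig
  have hpos : ∀ g ∈ F n, 0 < |g.1| ∧ |g.1| < 1 := fun g hg =>
    ⟨(mul_pos hc (hρ0 n)).trans_le (hF2 n g hg).1, (hF2 n g hg).2.trans_lt (hρ1 n)⟩
  have hsum : 1 ≤ ∑ g ∈ F n, |g.1| ^ (t : ℝ) := by
    have h1 : ∀ g ∈ F n, (c * ρ n) ^ (t : ℝ) ≤ |g.1| ^ (t : ℝ) := fun g hg =>
      Real.rpow_le_rpow (mul_pos hc (hρ0 n)).le (hF2 n g hg).1 t.2
    have h2 := Finset.sum_le_sum h1
    rw [Finset.sum_const, nsmul_eq_mul] at h2
    refine le_trans ?_ h2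
    have h3 : 0 < (c * ρ n) ^ (t : ℝ) := Real.rpow_pos_of_pos (mul_pos hc (hρ0 n)) _
    have h4 := mul_le_mul_of_nonneg_right hn.le h3.le
    rwa [inv_mul_cancel₀ h3.ne'] at h4
  obtain ⟨s, hts, hs⟩ := exists_dim hpos hsum
  refine ⟨F n, ⟨s, t.2.trans hts⟩, fun g hg => hF1 n g hg, ?_, hs, hts⟩
  exact (hF3 n).free hmM' (fun g hg => ⟨abs_pos.1 (hpos g hg).1, (hpos g hg).2⟩)
    (fun g hg => hgI g (hF1 n g hg))

end Pool.Agent.Y293.EO
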