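import Pool.Agent.Y293.EO.Lower
import Pool.Agent.Y293.EO.Upper

/-!
# The dimension of self-similar sets, with or without exact overlaps
-/

set_option autoImplicit false

open Set

namespace Pool.Agent.Y293.EO

open H517.EO

/-- freely generated subsystems bound the dimension from below -/
theorem le_of_free {Φ : Set (ℝ × ℝ)} (hΦ : ∀ φ ∈ Φ, φ.1 ≠ 0 ∧ |φ.1| < 1) {X : Set ℝ}
    (hXc : IsCompact X) (hXn : X.Nonempty) (hX1 : ∀ φ ∈ Φ, ∀ x ∈ X, φ.1 * x + φ.2 ∈ X)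
    {Ψ : Finset (ℝ × ℝ)} (hΨ : (Ψ : Set (ℝ × ℝ)) ⊆ gen Φ) (hf : IsFree (Ψ : Set (ℝ × ℝ)))
    {s : ℝ} (hs : ∑ ψ ∈ Ψ, |ψ.1| ^ s = 1) : ENNReal.ofReal (min 1 s) ≤ dimH X := by
  classical
  have hcard : 0 < Ψ.card := by
    rcases Finset.eq_empty_or_nonempty Ψ with h | h
    · rw [h, Finset.sum_empty] at hs
      exact absurd hs zero_ne_one
    · exact h.card_pos
  let e : Fin Ψ.card ≃ {ψ // ψ ∈ Ψ} := (Ψ.equivFin).symm
  have hmem : ∀ i, ((e i).1) ∈ gen Φ := fun i => hΨ (Finset.mem_coe.2 (e i).2)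
  have hr : ∀ i, (e i).1.1 ≠ 0 ∧ |(e i).1.1| < 1 := fun i => gen_contr hΦ (hmem i)
  have hPhi : ∀ w : List (Fin Ψ.card),
      Phi (fun i => (e i).1.1) (fun i => (e i).1.2) w = comp (w.map fun i => (e i).1) := by
    intro w
    funext x
    induction w with
    | nil => rfl
    | cons i w ih => rw [Phi_cons, ih, List.map_cons, comp_cons]
  have hletters : ∀ w : List (Fin Ψ.card), ∀ ψ ∈ w.map (fun i => (e i).1), ψ ∈ Ψ := by
    intro w ψ hψ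
    obtain ⟨i, -, rfl⟩ := List.mem_map.1 hψ
    exact (e i).2
  have hinj : Function.Injective (fun i => ((e i).1 : ℝ × ℝ)) :=
    Subtype.val_injective.comp e.injective
  have hcontr : ∀ w : List (Fin Ψ.card), ∀ ψ ∈ w.map (fun i => (e i).1), |ψ.1| < 1 :=
    fun w ψ hψ => (gen_contr hΦ (hΨ (hletters w ψ hψ))).2
  refine lower (fun i => (e i).1.1) (fun i => (e i).1.2) hcard hr ?_ X hXn hXc
    (fun i x hx => gen_mem hX1 (hmem i) x hx) s ?_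
  · intro w w' hww
    rw [hPhi, hPhi] at hww
    rcases w with _ | ⟨i, w⟩ <;> rcases w' with _ | ⟨i', w'⟩
    · rfl
    · exact absurd hww.symm (comp_ne_id (hcontr _) (by simp))
    · exact absurd hww (comp_ne_id (hcontr _) (by simp))
    · have h1 := hf _ _ (by simp) (by simp) (hletters (i :: w)) (hletters (i' :: w')) hww
      exact hinj.list_map h1
  · rw [← hs, ← Finset.sum_coe_sort Ψ (fun ψ => |ψ.1| ^ s)]
    exact e.sum_comp (fun ψ : {ψ // ψ ∈ Ψ} => |ψ.1.1| ^ s)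

/-- **Dimension formula** for the attractors of compact families of contracting similarities of the
line, with or without exact overlaps. -/
theorem formula {Φ : Set (ℝ × ℝ)} (hne : Φ.Nonempty) (hc : IsCompact Φ)
    (hΦ : ∀ φ ∈ Φ, φ.1 ≠ 0 ∧ |φ.1| < 1) {X : Set ℝ} (hXn : X.Nonempty) (hXc : IsCompact X)
    (hX : X = ⋃ φ ∈ Φ, (fun x : ℝ => φ.1 * x + φ.2) '' X) :
    dimH X = min 1 (⨆ (Ψ : Finset (ℝ × ℝ)) (s : NNReal) (_ : (Ψ : Set (ℝ × ℝ)) ⊆ gen Φ ∧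
      IsFree (Ψ : Set (ℝ × ℝ)) ∧ ∑ ψ ∈ Ψ, |ψ.1| ^ (s : ℝ) = 1), (s : ENNReal)) := by
  have hX1 : ∀ φ ∈ Φ, ∀ x ∈ X, φ.1 * x + φ.2 ∈ X := by
    intro φ hφ x hx
    have : φ.1 * x + φ.2 ∈ ⋃ φ ∈ Φ, (fun x : ℝ => φ.1 * x + φ.2) '' X :=
      mem_iUnion₂.2 ⟨φ, hφ, x, hx, rfl⟩
    rw [← hX] at this
    exact this
  have hX2 : ∀ x ∈ X, ∃ φ ∈ Φ, ∃ y ∈ X, φ.1 * y + φ.2 = x := by
    intro x hx
    rw [hX] at hx
    obtain ⟨φ, hφ, y, hy, hyx⟩ := mem_iUnion₂.1 hx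
    exact ⟨φ, hφ, y, hy, hyx⟩
  obtain ⟨φ₀, hφ₀, hmin⟩ := hc.exists_isMinOn hne
    ((continuous_abs.comp continuous_fst).continuousOn (s := Φ))
  obtain ⟨φ₁, hφ₁, hmax⟩ := hc.exists_isMaxOn hne
    ((continuous_abs.comp continuous_fst).continuousOn (s := Φ))
  have hb : ∀ φ ∈ Φ, |φ₀.1| ≤ |φ.1| ∧ |φ.1| ≤ |φ₁.1| := fun φ hφ => ⟨hmin hφ, hmax hφ⟩
  refine le_antisymm (le_min ?_ ?_) ?_
  · calc dimH X ≤ dimH (univ : Set ℝ) := dimH_mono (subset_univ X)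
      _ = 1 := Real.dimH_univ
  · refine le_of_forall_lt fun a ha => ?_
    obtain ⟨t, hat, ht⟩ := ENNReal.lt_iff_exists_nnreal_btwn.1 ha
    obtain ⟨F, s, h1, h2, h3, h4⟩ := exists_sep (abs_pos.2 (hΦ φ₀ hφ₀).1) (hΦ φ₁ hφ₁).2 hb hXc hXn
      hX1 hX2 ht
    refine hat.trans_le ((ENNReal.coe_le_coe.2 h4).trans ?_)
    exact le_iSup_of_le F (le_iSup_of_le s (le_iSup_of_le ⟨h1, h2, h3⟩ le_rfl))
  · change (1 : ENNReal) ⊓ _ ≤ _
    rw [inf_iSup_eq]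
    refine iSup_le fun Ψ => ?_
    rw [inf_iSup_eq]
    refine iSup_le fun s => ?_
    rw [inf_iSup_eq]
    refine iSup_le fun h => ?_
    have h1 := le_of_free hΦ hXc hXn hX1 h.1 h.2.1 h.2.2
    rw [ENNReal.ofReal_min, ENNReal.ofReal_one, ENNReal.ofReal_coe_nnreal] at h1
    exact h1

end Pool.Agent.Y293.EO
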