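import Pool.Agent.Y293.EO.Base

/-!
# Lower bound of the dimension of sets invariant under a free system
-/

set_option autoImplicit false

open Finset

namespace Pool.Agent.Y293.EO

open H517.EO

theorem lower {n : ℕ} (r b : Fin n → ℝ) (hn : 0 < n) (hr : ∀ i, r i ≠ 0 ∧ |r i| < 1)
    (hfree : ∀ w w' : List (Fin n), Phi r b w = Phi r b w' → w = w')
    (X : Set ℝ) (hXn : X.Nonempty) (hXc : IsCompact X) (hXi : ∀ i, ∀ x ∈ X, r i * x + b i ∈ X)
    (s : ℝ) (hs : ∑ i, |r i| ^ s = 1) : ENNReal.ofReal (min 1 s) ≤ dimH X := by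
  rcases Nat.lt_or_ge n 2 with hn2 | hn2
  · obtain rfl : n = 1 := by omega
    have hs0 : s = 0 := by
      have h4 : |r 0| ^ s = 1 := by simpa using hs
      have h5 : 0 < |r 0| := abs_pos.2 (hr 0).1
      rcases lt_trichotomy s 0 with h | h | h
      · exact absurd h4 (Real.one_lt_rpow_of_pos_of_lt_one_of_neg h5 (hr 0).2 h).ne'
      · exact h
      · exact absurd h4 (Real.rpow_lt_one h5.le (hr 0).2 h).ne
    subst hs0
    simp
  · refine ENNReal.le_of_forall_pos_le_add ?_
    intro ε hε _
    obtain ⟨N, lam, W, hN, hl0, hl1, hW2, hW, hWs⟩ :=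
      t_G_type n r s hn2 hr hs ε (by exact_mod_cast hε)
    have hfr : Free lam (fun a : {w // w ∈ W} => Phi r b (List.ofFn a.1) 0) := by
      intro k p q hpq
      have h6 : (List.ofFn (fun i => List.ofFn (p i).1)).flatten
          = (List.ofFn (fun i => List.ofFn (q i).1)).flatten := by
        apply hfree
        funext x
        have e1 := Phi_flatten r b (fun a : {w // w ∈ W} => a.1) lam (fun a => hW a.1 a.2) k p x
        have e2 := Phi_flatten r b (fun a : {w // w ∈ W} => a.1) lam (fun a => hW a.1 a.2) k q x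
        refine e1.trans (Eq.trans ?_ e2.symm)
        rw [hpq]
      have h7 : List.ofFn (fun i => List.ofFn (p i).1) = List.ofFn (fun i => List.ofFn (q i).1) := by
        rw [List.eq_iff_flatten_eq]
        refine ⟨h6, ?_⟩
        rw [List.map_ofFn, List.map_ofFn]
        congr 1
        funext i
        simp
      have h8 := List.ofFn_injective h7
      funext i
      have h9 := congrFun h8 i
      exact Subtype.ext (List.ofFn_injective h9)
    have h10 := homog {w // w ∈ W} lam (fun a => Phi r b (List.ofFn a.1) 0)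
      (by rw [Fintype.card_coe]; exact hW2) hl0 hl1 hfr X hXn hXc (by
        intro a x hx
        rw [← Phi_ofFn r b a.1 lam (hW a.1 a.2) x]
        exact Phi_mem r b hXi _ x hx)
    rw [Fintype.card_coe] at h10
    have h11 : min 1 s ≤ min 1 (Real.log W.card / Real.log (1 / lam)) + (ε : ℝ) := by
      have hε' : (0 : ℝ) < ε := by exact_mod_cast hε
      rcases le_total 1 (Real.log W.card / Real.log (1 / lam)) with h12 | h12
      · rw [min_eq_left h12]
        exact (min_le_left _ _).trans (by linarith)
      · rw [min_eq_right h12]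
        exact (min_le_right _ _).trans (by linarith)
    calc ENNReal.ofReal (min 1 s)
        ≤ ENNReal.ofReal (min 1 (Real.log W.card / Real.log (1 / lam)) + (ε : ℝ)) :=
          ENNReal.ofReal_le_ofReal h11
      _ ≤ ENNReal.ofReal (min 1 (Real.log W.card / Real.log (1 / lam))) + ENNReal.ofReal (ε : ℝ) :=
          ENNReal.ofReal_add_le
      _ ≤ dimH X + ε := by
          rw [ENNReal.ofReal_coe_nnreal]
          gcongr

end Pool.Agent.Y293.EO
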